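import Mathlib

set_option autoImplicit false

open Topology Filter Set

namespace Pool.Agent.Results.MP_718903_gt.CountableT1

/-- `X` is d-separable: it has a dense subspace which is a union of countably many discrete
subspaces. -/
def DSeparable (X : Type) [TopologicalSpace X] : Prop :=
  ∃ F : ℕ → Set X, (∀ n, DiscreteTopology (F n)) ∧ Dense (⋃ n, F n)

/-- `X` is D-separable: for every sequence of dense subspaces `D n` one can choose discrete
subspaces `F n ⊆ D n` whose union is dense. -/
def SelDSeparable (X : Type) [TopologicalSpace X] : Prop :=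
  ∀ D : ℕ → Set X, (∀ n, Dense (D n)) →
    ∃ F : ℕ → Set X, (∀ n, F n ⊆ D n) ∧ (∀ n, DiscreteTopology (F n)) ∧ Dense (⋃ n, F n)

/-- The underlying set: finite sequences of natural numbers; the children of `s` are the
sequences `n :: s`. -/
structure Sp : Type where
  /-- the finite sequence -/
  seq : List ℕ

/-- the `n`-th child of `s` -/
def Sp.child (s : Sp) (n : ℕ) : Sp := ⟨n :: s.seq⟩

theorem child_inj (s : Sp) {m n : ℕ} (h : s.child m = s.child n) : m = n := by
  unfold Sp.child at h
  simpa using h

/-- A set `U` is open if, as soon as it contains `s` or one of its children, it contains all but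
finitely many of the children of `s`. -/
instance topo : TopologicalSpace Sp where
  IsOpen U := ∀ s : Sp, (s ∈ U ∨ ∃ n, s.child n ∈ U) → {n | s.child n ∉ U}.Finite
  isOpen_univ := by
    intro s _
    simp
  isOpen_inter := by
    intro U V hU hV s h
    have h1 : (s ∈ U ∨ ∃ n, s.child n ∈ U) := by
      rcases h with h | ⟨n, h⟩
      · exact Or.inl h.1
      · exact Or.inr ⟨n, h.1⟩
    have h2 : (s ∈ V ∨ ∃ n, s.child n ∈ V) := by
      rcases h with h | ⟨n, h⟩
      · exact Or.inl h.2
      · exact Or.inr ⟨n, h.2⟩
    refine ((hU s h1).union (hV s h2)).subset ?_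
    intro n hn
    by_contra hc
    simp only [mem_union, mem_ofPred_eq, not_or, not_not] at hc
    exact hn ⟨hc.1, hc.2⟩
  isOpen_sUnion := by
    intro S hS s h
    have h1 : ∃ U ∈ S, (s ∈ U ∨ ∃ n, s.child n ∈ U) := by
      rcases h with ⟨U, hU, h⟩ | ⟨n, U, hU, h⟩
      · exact ⟨U, hU, Or.inl h⟩
      · exact ⟨U, hU, Or.inr ⟨n, h⟩⟩
    obtain ⟨U, hU, h⟩ := h1
    refine (hS U hU s h).subset ?_
    intro n hn hc
    exact hn ⟨U, hU, hc⟩

theorem isOpen_def (U : Set Sp) :
    IsOpen U ↔ ∀ s : Sp, (s ∈ U ∨ ∃ n, s.child n ∈ U) → {n | s.child n ∉ U}.Finite :=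
  Iff.rfl

theorem isClosed_def (C : Set Sp) :
    IsClosed C ↔ ∀ s : Sp, {n | s.child n ∈ C}.Infinite → s ∈ C ∧ ∀ n, s.child n ∈ C := by
  rw [← isOpen_compl_iff, isOpen_def]
  constructor
  · intro h s hs
    by_contra hc
    apply hs
    have := h s (by
      by_contra hd
      push Not at hd
      apply hc
      refine ⟨?_, fun n => ?_⟩
      · by_contra h1
        exact hd.1 h1
      · by_contra h1
        exact hd.2 n h1)
    simpa using this
  · intro h s hs
    by_contra hc
    have h1 : {n | s.child n ∈ C}.Infinite := by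
      intro hf
      apply hc
      simpa using hf
    obtain ⟨h2, h3⟩ := h s h1
    rcases hs with hs | ⟨n, hs⟩
    · exact hs h2
    · exact hs (h3 n)

instance : Countable Sp :=
  Function.Injective.countable (f := Sp.seq) (fun a b h => by cases a; cases b; simpa using h)

instance : T1Space Sp := by
  refine ⟨fun x => ?_⟩
  rw [isClosed_def]
  intro s hs
  exfalso
  apply hs
  apply Set.Subsingleton.finite
  intro m hm n hn
  simp only [mem_singleton_iff, mem_ofPred_eq] at hm hn
  exact child_inj s (hm.trans hn.symm)

theorem tendsto_child (s : Sp) (k : ℕ → ℕ) (hk : Function.Injective k) (x : Sp)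
    (hx : x = s ∨ ∃ n, x = s.child n) :
    Tendsto (fun i => s.child (k i)) atTop (𝓝 x) := by
  rw [tendsto_nhds]
  intro U hU hxU
  have h1 : {n | s.child n ∉ U}.Finite := by
    apply hU
    rcases hx with h | ⟨n, h⟩
    · left; rw [← h]; exact hxU
    · right; exact ⟨n, by rw [← h]; exact hxU⟩
  have h2 : {i | s.child (k i) ∉ U}.Finite := h1.preimage hk.injOn
  rw [← Nat.cofinite_eq_atTop]
  exact h2

instance : SequentialSpace Sp := by
  refine ⟨fun C hC => ?_⟩
  rw [isClosed_def]
  intro s hs
  have key : ∀ x : Sp, (x = s ∨ ∃ n, x = s.child n) → x ∈ C := by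
    intro x hx
    refine hC (x := fun i => s.child (Nat.nth (fun n => s.child n ∈ C) i)) (fun i => ?_)
      (tendsto_child s _ (Nat.nth_injective hs) x hx)
    exact Nat.nth_mem_of_infinite hs i
  exact ⟨key s (Or.inl rfl), fun n => key _ (Or.inr ⟨n, rfl⟩)⟩

/-- A discrete set contains only finitely many children of any point. -/
theorem finite_children_of_discrete (F : Set Sp) (hF : DiscreteTopology F) (s : Sp) :
    {n | s.child n ∈ F}.Finite := by
  by_contra hinf
  obtain ⟨m, hm⟩ := (show {n | s.child n ∈ F}.Infinite from hinf).nonempty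
  have hm' : s.child m ∈ F := hm
  have h1 := (discreteTopology_subtype_iff.mp hF) (s.child m) hm'
  have h2 : ∃ U : Set Sp, IsOpen U ∧ s.child m ∈ U ∧ U ∩ F ⊆ {s.child m} := by
    rw [← disjoint_iff] at h1
    rw [disjoint_principal_right, mem_nhdsWithin] at h1
    obtain ⟨U, hU, hmU, hsub⟩ := h1
    refine ⟨U, hU, hmU, ?_⟩
    rintro x ⟨hxU, hxF⟩
    by_contra hne
    exact hsub ⟨hxU, hne⟩ hxF
  obtain ⟨U, hU, hmU, hsub⟩ := h2
  have h4 : {n | s.child n ∉ U}.Finite := hU s (Or.inr ⟨m, hmU⟩)
  have h5 : {n | s.child n ∈ F} ⊆ {n | s.child n ∉ U} ∪ {m} := by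
    intro n hn
    by_cases h : s.child n ∈ U
    · right
      exact child_inj s (hsub ⟨h, hn⟩)
    · left; exact h
  exact hinf ((h4.union (finite_singleton m)).subset h5)

/-- The set of sequences of length at least `n`. -/
def lev (n : ℕ) : Set Sp := {x | n ≤ x.seq.length}

theorem dense_lev (n : ℕ) : Dense (lev n) := by
  have hcl : IsClosed (closure (lev n)) := isClosed_closure
  rw [isClosed_def] at hcl
  have key : ∀ j : ℕ, ∀ x : Sp, n ≤ x.seq.length + j → x ∈ closure (lev n) := by
    intro j
    induction j with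
    | zero =>
      intro x hx
      exact subset_closure hx
    | succ j ih =>
      intro x hx
      refine (hcl x ?_).1
      have : {m | x.child m ∈ closure (lev n)} = univ := by
        ext m
        simp only [mem_ofPred_eq, mem_univ, iff_true]
        apply ih
        simp only [Sp.child, List.length_cons]
        omega
      rw [this]
      exact infinite_univ
  intro x
  exact key n x (by omega)

theorem not_selDSeparable : ¬ SelDSeparable Sp := by
  intro h
  obtain ⟨F, hsub, hdisc, hdense⟩ := h lev dense_lev
  have hfin : ∀ s : Sp, {m | s.child m ∈ ⋃ n, F n}.Finite := by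
    intro s
    have h1 : {m | s.child m ∈ ⋃ n, F n} ⊆
        ⋃ n ∈ Finset.range (s.seq.length + 2), {m | s.child m ∈ F n} := by
      intro m hm
      simp only [mem_ofPred_eq, mem_iUnion] at hm
      obtain ⟨n, hn⟩ := hm
      simp only [mem_iUnion]
      refine ⟨n, ?_, hn⟩
      have h2 := hsub n hn
      simp only [lev, mem_ofPred_eq, Sp.child, List.length_cons] at h2
      simp only [Finset.mem_range]
      omega
    refine Set.Finite.subset ?_ h1
    apply Set.Finite.biUnion (Finset.finite_toSet _)
    intro n _
    exact finite_children_of_discrete (F n) (hdisc n) s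
  have hclosed : IsClosed (⋃ n, F n) := by
    rw [isClosed_def]
    intro s hs
    exact absurd (hfin s) hs
  have huniv : (⋃ n, F n) = univ := by
    rw [← hclosed.closure_eq]
    exact hdense.closure_eq
  have := hfin ⟨[]⟩
  rw [huniv] at this
  simp only [mem_univ, ofPred_true] at this
  exact infinite_univ this

theorem dSeparable : DSeparable Sp := by
  classical
  haveI : Nonempty Sp := ⟨⟨[]⟩⟩
  obtain ⟨f, hf⟩ := exists_surjective_nat Sp
  refine ⟨fun n => {f n}, fun n => inferInstance, ?_⟩
  have : (⋃ n, ({f n} : Set Sp)) = univ := by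
    ext x
    obtain ⟨n, hn⟩ := hf x
    simp only [mem_iUnion, mem_singleton_iff, mem_univ, iff_true]
    exact ⟨n, hn.symm⟩
  rw [this]
  exact dense_univ

/-- There is a countable (hence separable and d-separable) sequential `T₁` space which is not
D-separable. -/
theorem result : ∃ (X : Type) (_ : TopologicalSpace X), Countable X ∧ T1Space X ∧
    SequentialSpace X ∧ TopologicalSpace.SeparableSpace X ∧ DSeparable X ∧ ¬ SelDSeparable X :=
  ⟨Sp, topo, inferInstance, inferInstance, inferInstance, inferInstance, dSeparable,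
    not_selDSeparable⟩

end Pool.Agent.Results.MP_718903_gt.CountableT1
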