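import Mathlib

set_option autoImplicit false

open Topology Filter Set

namespace Pool.Agent.Results.MP_718903_gt.SeparableHausdorff

universe u

/-- `X` is D-separable: for every sequence of dense subspaces `D n` one can choose discrete
subspaces `F n ⊆ D n` whose union is dense. -/
def SelDSeparable (X : Type u) [TopologicalSpace X] : Prop :=
  ∀ D : ℕ → Set X, (∀ n, Dense (D n)) →
    ∃ F : ℕ → Set X, (∀ n, F n ⊆ D n) ∧ (∀ n, DiscreteTopology (F n)) ∧ Dense (⋃ n, F n)

/-- `x` is in the closure of a discrete subset of `A`. -/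
def DG {X : Type u} [TopologicalSpace X] (A : Set X) (x : X) : Prop :=
  ∃ F : Set X, F ⊆ A ∧ (∀ y ∈ F, ∃ U : Set X, IsOpen U ∧ y ∈ U ∧ U ∩ F ⊆ {y}) ∧ x ∈ closure F

theorem dg_of_tendsto {X : Type u} [TopologicalSpace X] [T2Space X] (A : Set X) (x : X)
    (s : ℕ → X) (hs : ∀ n, DG A (s n)) (hlim : Tendsto s atTop (𝓝 x)) : DG A x := by
  by_cases hne : ∃ n, s n = x
  · obtain ⟨n, hn⟩ := hne
    rw [← hn]; exact hs n
  push Not at hne
  have h1 : ∀ n, ∃ U V : Set X, IsOpen U ∧ IsOpen V ∧ s n ∈ U ∧ x ∈ V ∧ Disjoint U V :=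
    fun n => t2_separation (hne n)
  choose U V hU hV hsU hxV hUV using h1
  have h2 : ∀ n, ∃ f, ∀ m ≥ f, s m ∈ V n := fun n =>
    eventually_atTop.mp (hlim ((hV n).mem_nhds (hxV n)))
  choose f hf using h2
  let k : ℕ → ℕ := fun n => Nat.rec 0 (fun _ a => f a + a + 1) n
  have hk : ∀ n, k (n + 1) = f (k n) + k n + 1 := fun n => rfl
  have hmono : StrictMono k := strictMono_nat_of_lt_succ fun n => by rw [hk]; omega
  have hV' : ∀ i j, i < j → s (k j) ∈ V (k i) := by
    intro i j hij
    apply hf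
    have h3 : k (i + 1) ≤ k j := hmono.monotone hij
    rw [hk] at h3
    omega
  let W : ℕ → Set X := fun j => U (k j) ∩ ⋂ i ∈ Finset.range j, V (k i)
  have hW : ∀ j, IsOpen (W j) := fun j =>
    (hU _).inter (isOpen_biInter_finset fun i _ => hV _)
  have hsW : ∀ j, s (k j) ∈ W j := by
    intro j
    refine ⟨hsU _, ?_⟩
    simp only [mem_iInter, Finset.mem_range]
    exact fun i hi => hV' i j hi
  have hdisj : ∀ i j, i ≠ j → ∀ y, y ∈ W i → y ∈ W j → False := by
    have key : ∀ i j, i < j → ∀ y, y ∈ W i → y ∈ W j → False := by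
      intro i j hij y hi hj
      have h4 : y ∈ V (k i) := by
        have := hj.2
        simp only [mem_iInter, Finset.mem_range] at this
        exact this i hij
      exact (disjoint_left.mp (hUV (k i))) hi.1 h4
    intro i j hij y hi hj
    rcases lt_or_gt_of_ne hij with h | h
    · exact key i j h y hi hj
    · exact key j i h y hj hi
  choose F hFA hFd hFc using hs
  refine ⟨⋃ j, F (k j) ∩ W j, iUnion_subset fun j => inter_subset_left.trans (hFA _), ?_, ?_⟩
  · intro y hy
    obtain ⟨j, hyF, hyW⟩ := mem_iUnion.mp hy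
    obtain ⟨O, hO, hyO, hsub⟩ := hFd (k j) y hyF
    refine ⟨O ∩ W j, hO.inter (hW j), ⟨hyO, hyW⟩, ?_⟩
    rintro z ⟨⟨hzO, hzW⟩, hz⟩
    obtain ⟨i, hzF, hzW'⟩ := mem_iUnion.mp hz
    have hij : i = j := by
      by_contra hc
      exact hdisj i j hc z hzW' hzW
    subst hij
    exact hsub ⟨hzO, hzF⟩
  · have h5 : ∀ j, s (k j) ∈ closure (⋃ j, F (k j) ∩ W j) := by
      intro j
      rw [mem_closure_iff]
      intro O hO hsO
      obtain ⟨y, hy1, hy2⟩ := mem_closure_iff.mp (hFc (k j)) (O ∩ W j) (hO.inter (hW j))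
        ⟨hsO, hsW j⟩
      exact ⟨y, hy1.1, mem_iUnion.mpr ⟨j, hy2, hy1.2⟩⟩
    exact isClosed_closure.mem_of_tendsto (hlim.comp hmono.tendsto_atTop)
      (Eventually.of_forall h5)

/-- A sequential Hausdorff space is discretely generated. -/
theorem dg_of_mem_closure {X : Type u} [TopologicalSpace X] [T2Space X] [SequentialSpace X]
    (A : Set X) (x : X) (hx : x ∈ closure A) : DG A x := by
  have h1 : IsSeqClosed {x | DG A x} := fun s x hs hlim => dg_of_tendsto A x s hs hlim
  have h2 : A ⊆ {x | DG A x} := fun y hy =>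
    ⟨{y}, singleton_subset_iff.mpr hy, fun z _ => ⟨univ, isOpen_univ, trivial, by
      rintro w ⟨-, hw⟩
      simp_all⟩, subset_closure rfl⟩
  exact closure_minimal h2 h1.isClosed hx

theorem discrete_of (X : Type u) [TopologicalSpace X] (F : Set X)
    (h : ∀ y ∈ F, ∃ U : Set X, IsOpen U ∧ y ∈ U ∧ U ∩ F ⊆ {y}) : DiscreteTopology F := by
  rw [discreteTopology_subtype_iff]
  intro y hy
  obtain ⟨U, hU, hyU, hs⟩ := h y hy
  rw [← disjoint_iff, disjoint_principal_right, mem_nhdsWithin]
  refine ⟨U, hU, hyU, ?_⟩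
  rintro z ⟨hzU, hzy⟩ hzF
  exact hzy (hs ⟨hzU, hzF⟩)

/-- Every separable Hausdorff sequential space is D-separable. -/
theorem result (X : Type u) [TopologicalSpace X] [T2Space X] [SequentialSpace X]
    [TopologicalSpace.SeparableSpace X] : SelDSeparable X := by
  intro D hD
  rcases isEmpty_or_nonempty X with hX | hX
  · exact ⟨fun _ => ∅, fun _ => empty_subset _, fun _ => inferInstance, fun x => hX.elim x⟩
  · have h1 : ∀ n, DG (D n) (TopologicalSpace.denseSeq X n) := fun n =>
      dg_of_mem_closure _ _ (by rw [(hD n).closure_eq]; trivial)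
    choose F hFD hFd hFc using h1
    refine ⟨F, hFD, fun n => discrete_of X _ (hFd n), ?_⟩
    have h2 : range (TopologicalSpace.denseSeq X) ⊆ closure (⋃ n, F n) := by
      rintro _ ⟨n, rfl⟩
      exact closure_mono (subset_iUnion F n) (hFc n)
    have h3 := (TopologicalSpace.denseRange_denseSeq X).closure_range
    intro x
    have h4 : closure (range (TopologicalSpace.denseSeq X)) ⊆ closure (⋃ n, F n) :=
      closure_minimal h2 isClosed_closure
    rw [h3] at h4
    exact h4 trivial

end Pool.Agent.Results.MP_718903_gt.SeparableHausdorff
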