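import Pool.Agent.H94R3.SigmaNeg
import Pool.Agent.H94R3.Sequential

/-!
# Sequential d-separable spaces that are not D-separable

* There is a countable `T₁` Fréchet (hence sequential) space that is not D-separable: this is
  the countable version of the question, and answers all three versions of Q1.
* With separation axioms: there is a Tychonoff Fréchet d-separable space that is not
  D-separable, but every separable (in particular every countable) sequential Hausdorff space is
  D-separable.
-/

set_option autoImplicit false

open Set Topology Cardinal

namespace Pool.Agent.Results.MP_718903_gt.SequentialDSeparable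

open Pool.Agent.H94R3.Sigma Pool.Agent.H94R3.Sequential

universe u

/-- (1) There is a countable `T₁` sequential (even Fréchet) space which is not D-separable (it is
d-separable, being countable).

(2) There is a Tychonoff sequential (even Fréchet) d-separable space which is not D-separable.

(3) Every separable sequential Hausdorff space is D-separable. -/
theorem result :
    (∃ (X : Type) (_ : TopologicalSpace X), Countable X ∧ T1Space X ∧ SequentialSpace X ∧
      FrechetUrysohnSpace X ∧ WeaklyDSeparable X ∧ ¬ SelectivelyDSeparable X) ∧
    (∃ (X : Type) (_ : TopologicalSpace X), T35Space X ∧ SequentialSpace X ∧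
      FrechetUrysohnSpace X ∧ WeaklyDSeparable X ∧ ¬ SelectivelyDSeparable X) ∧
    (∀ (X : Type u) [TopologicalSpace X] [T2Space X] [SequentialSpace X]
      [TopologicalSpace.SeparableSpace X], SelectivelyDSeparable X) := by
  refine ⟨⟨Grid, inferInstance, inferInstance, inferInstance, inferInstance, inferInstance,
    weaklyDSeparable_of_countable Grid, not_selectivelyDSeparable_grid⟩, ?_, ?_⟩
  · have : FrechetUrysohnSpace (SigmaCantor (ℕ → Bool)) := frechet
    refine ⟨SigmaCantor (ℕ → Bool), inferInstance, inferInstance, inferInstance, this,
      weaklyDSeparable, not_selectivelyDSeparable ?_⟩
    simp
  · intro X _ _ _ _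
    exact selectivelyDSeparable_of_sequential X

end Pool.Agent.Results.MP_718903_gt.SequentialDSeparable
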